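import Pool.Agent.Mg.Ff7ace6.Gcce435

set_option autoImplicit false

namespace Pool.Agent.Results.MP_f7ace6_lc.ScatteredDegrees

open Pool.Agent.MP_f7ace6_lc

/-- The oracles computing computably scattered linear extensions are exactly those of
hyperimmune degree or PA degree, and one scattered poset witnesses this. -/
theorem result :
    ∃ P : ℕ → ℕ → Prop, CompPoset P ∧ CompScattered P ∧
      (¬ ∃ g : ℚ → ℕ, ∀ p q, p < q → P (g p) (g q) ∧ g p ≠ g q) ∧ ∀ o : ℕ → ℕ,
      List.TFAE
        [∀ R : ℕ → ℕ → Prop, CompPoset R → CompScattered R →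
            ∃ L : ℕ → ℕ → Prop, LinExt R L ∧ CompScattered L ∧ RelIn o L,
          ∃ L : ℕ → ℕ → Prop, LinExt P L ∧ CompScattered L ∧ RelIn o L,
          Hyperimmune o ∨ PADegree o] := by
  have h0 : CompPoset (PO fun _ => True) := po_comp (p_const True)
  have h1 : CompScattered (PO fun _ => True) :=
    fun ⟨g, _, _, h⟩ => po_scattered _ ⟨g, h⟩
  refine ⟨PO fun _ => True, h0, h1, po_scattered _, fun o => ?_⟩
  tfae_have 1 → 2 := fun h => h _ h0 h1
  tfae_have 2 → 3 := fun ⟨_, k1, k2, k3⟩ => lower_sc k1 k2 k3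
  tfae_have 3 → 1 := fun h R hR hsc => by
    obtain ⟨L, k1, k2, k3⟩ := upper hR h
    exact ⟨L, k1, compScattered_of_good hR hsc k2, k3⟩
  tfae_finish

end Pool.Agent.Results.MP_f7ace6_lc.ScatteredDegrees
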