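import Pool.Agent.MP_f7ace6_lc.DScN

set_option autoImplicit false

namespace Pool.Agent.Results.MP_f7ace6_lc.ScatteredForbidden

open Pool.Agent.MP_f7ace6_lc Pool.Agent.MP_f7ace6_lc.Dich

/-- For a family of finite posets, every computable, computably scattered poset omitting the
family has a computable (equivalently co-c.e.) computably scattered linear extension if and only
if some member of the family omits both the N and the butterfly. -/
theorem result (ι : Type) (Q : ι → Type) [∀ i, PartialOrder (Q i)] [∀ i, Finite (Q i)] :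
    List.TFAE
      [∀ R : ℕ → ℕ → Prop, CompPoset R → CompScattered R →
          (∀ i, IsEmpty (((· ≤ ·) : Q i → Q i → Prop) ↪r R)) →
          ∃ L : ℕ → ℕ → Prop, LinExt R L ∧ CompScattered L ∧
            ComputablePred fun p : ℕ × ℕ => L p.1 p.2,
        ∀ R : ℕ → ℕ → Prop, CompPoset R → CompScattered R →
          (∀ i, IsEmpty (((· ≤ ·) : Q i → Q i → Prop) ↪r R)) →
          ∃ L : ℕ → ℕ → Prop, LinExt R L ∧ CompScattered L ∧ Pi01 L,
        ∃ i, ∀ a b c d : Q i, a ≤ c → b ≤ c → b ≤ d → (a ≤ b ∨ b ≤ a) ∨ (c ≤ d ∨ d ≤ c)] := by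
  tfae_have 1 → 2 := fun h R hR hsc hno => by
    obtain ⟨L, h1, h2, h3⟩ := h R hR hsc hno
    exact ⟨L, h1, h2, pi01_of_p (p_of_computablePred h3)⟩
  tfae_have 2 → 3 := fun h => by
    by_contra hc
    obtain ⟨L, h1, h2, h3⟩ := h PQ pq_comp pq_scattered fun i => ⟨fun e =>
      hc ⟨i, fun a b c d k1 k2 k3 => by
        simpa only [e.map_rel_iff] using
          pq_tp _ _ _ _ (e.map_rel_iff.2 k1) (e.map_rel_iff.2 k2) (e.map_rel_iff.2 k3)⟩⟩
    exact pq_neg h1 h3 h2
  tfae_have 3 → 1 := fun ⟨i, hi⟩ R hR hsc hno => by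
    obtain ⟨L, h1, h2, h3⟩ := sc_pos hR hsc hi (hno i)
    exact ⟨L, h1, h2, p_empty (p_of_pi01 h1.1 h3)⟩
  tfae_finish

end Pool.Agent.Results.MP_f7ace6_lc.ScatteredForbidden
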