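import Pool.Agent.Mg.Ff7ace6.Gcce435

set_option autoImplicit false

namespace Pool.Agent.Results.MP_f7ace6_lc.WellFoundedDegrees

open Pool.Agent.MP_f7ace6_lc

/-- The oracles computing computably well-founded linear extensions are exactly those of
hyperimmune degree or PA degree, and one poset witnesses this. -/
theorem result :
    ∃ P : ℕ → ℕ → Prop, CompPoset P ∧ CompWF P ∧ ∀ o : ℕ → ℕ,
      List.TFAE
        [∀ R : ℕ → ℕ → Prop, CompPoset R → CompWF R →
            ∃ L : ℕ → ℕ → Prop, LinExt R L ∧ CompWF L ∧ RelIn o L,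
          ∃ L : ℕ → ℕ → Prop, LinExt P L ∧ CompWF L ∧ RelIn o L,
          Hyperimmune o ∨ PADegree o] := by
  refine ⟨PO SW, po_comp p_SW, po_compWF, fun o => ?_⟩
  tfae_have 1 → 2 := fun h => h _ (po_comp p_SW) po_compWF
  tfae_have 2 → 3 := fun ⟨_, h1, h2, h3⟩ => lower_wf h1 h2 h3
  tfae_have 3 → 1 := fun h R hR hwf => by
    obtain ⟨L, h1, h2, h3⟩ := upper hR h
    exact ⟨L, h1, compWF_of_good hR hwf h1 h2, h3⟩
  tfae_finish

end Pool.Agent.Results.MP_f7ace6_lc.WellFoundedDegrees
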