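import Pool.Agent.MP_f7ace6_lc.DWF

set_option autoImplicit false

namespace Pool.Agent.Results.MP_f7ace6_lc.WellFoundedForbidden

open Pool.Agent.MP_f7ace6_lc Pool.Agent.MP_f7ace6_lc.Dich

/-- For a family of finite posets, every computable, computably well-founded poset omitting the
family has a computable (equivalently co-c.e.) computably well-founded linear extension if and
only if some member of the family has all its principal up-sets linearly ordered. -/
theorem result (ι : Type) (Q : ι → Type) [∀ i, PartialOrder (Q i)] [∀ i, Finite (Q i)] :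
    List.TFAE
      [∀ R : ℕ → ℕ → Prop, CompPoset R → CompWF R →
          (∀ i, IsEmpty (((· ≤ ·) : Q i → Q i → Prop) ↪r R)) →
          ∃ L : ℕ → ℕ → Prop, LinExt R L ∧ CompWF L ∧ ComputablePred fun p : ℕ × ℕ => L p.1 p.2,
        ∀ R : ℕ → ℕ → Prop, CompPoset R → CompWF R →
          (∀ i, IsEmpty (((· ≤ ·) : Q i → Q i → Prop) ↪r R)) →
          ∃ L : ℕ → ℕ → Prop, LinExt R L ∧ CompWF L ∧ Pi01 L,
        ∃ i, ∀ a b c : Q i, a ≤ b → a ≤ c → b ≤ c ∨ c ≤ b] := by
  tfae_have 1 → 2 := fun h R hR hwf hno => by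
    obtain ⟨L, h1, h2, h3⟩ := h R hR hwf hno
    exact ⟨L, h1, h2, pi01_of_p (p_of_computablePred h3)⟩
  tfae_have 2 → 3 := fun h => by
    by_contra hc
    obtain ⟨L, h1, h2, h3⟩ := h TO to_comp to_wf fun i => ⟨fun e => hc ⟨i, fun a b c k1 k2 =>
      (to_V _ _ _ (e.map_rel_iff.2 k1) (e.map_rel_iff.2 k2)).imp e.map_rel_iff.1 e.map_rel_iff.1⟩⟩
    exact to_neg h1 h3 h2
  tfae_have 3 → 1 := fun ⟨i, hi⟩ R hR hwf hno => by
    obtain ⟨L, h1, h2, h3⟩ := wf_pos hR hwf hi (hno i)
    exact ⟨L, h1, h2, p_empty (p_of_pi01 h1.1 h3)⟩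
  tfae_finish

end Pool.Agent.Results.MP_f7ace6_lc.WellFoundedForbidden
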